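import Pool.Agent.H602PD.Main

/-!
# Every fork-free graph is perfectly weight divisible
-/

set_option autoImplicit false

namespace Pool.Agent.Results.MP_e9db21_co.ForkFreeWeightDivisible

open Pool.Agent.H602PD

/-- `G` has no induced subgraph isomorphic to the fork with the edges `ab, bc, cd, ce`. -/
def IsForkFree {V : Type} (G : SimpleGraph V) : Prop :=
  ¬ ∃ a b c d e : V, a ≠ c ∧ a ≠ d ∧ a ≠ e ∧ b ≠ d ∧ b ≠ e ∧ d ≠ e ∧
    G.Adj a b ∧ G.Adj b c ∧ G.Adj c d ∧ G.Adj c e ∧
    ¬ G.Adj a c ∧ ¬ G.Adj a d ∧ ¬ G.Adj a e ∧ ¬ G.Adj b d ∧ ¬ G.Adj b e ∧ ¬ G.Adj d e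

/-- The subgraph of `G` induced by `A` is perfect: all its induced subgraphs have chromatic number
equal to the clique number. -/
def PerfectOn {V : Type} (G : SimpleGraph V) (A : Set V) : Prop :=
  ∀ T : Set V, T ⊆ A → (G.induce T).chromaticNumber = ((G.induce T).cliqueNum : ℕ∞)

/-- `G` is perfectly weight divisible: for all positive integer weights and each nonempty vertex set
`S` there is a partition of `S` into `A` and `B` such that `A` induces a perfect graph and each
clique inside `B` weighs less than a fixed clique inside `S`. -/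
def PerfectlyWeightDivisible {V : Type} (G : SimpleGraph V) : Prop :=
  ∀ w : V → ℕ, (∀ v, 0 < w v) → ∀ S : Set V, S.Nonempty →
    ∃ A B : Set V, A ∪ B = S ∧ Disjoint A B ∧ PerfectOn G A ∧
      ∃ K : Finset V, (↑K : Set V) ⊆ S ∧ G.IsClique (↑K : Set V) ∧
        ∀ L : Finset V, (↑L : Set V) ⊆ B → G.IsClique (↑L : Set V) →
          ∑ v ∈ L, w v < ∑ v ∈ K, w v

theorem perfectOn_of_perf {V : Type} [Fintype V] {G : SimpleGraph V} {A : Set V} (h : Perf G A) :
    PerfectOn G A := by
  classical
  intro T hT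
  obtain ⟨K, hK1, hK2, hK3⟩ := exists_max_clique G T
  have hcol := colorable_of_col (h T hT _ hK3)
  have h1 : (G.induce T).chromaticNumber ≤ (K.ncard : ℕ∞) := by
    rw [SimpleGraph.chromaticNumber_le_iff_colorable]
    exact hcol
  have h2 : K.ncard ≤ (G.induce T).cliqueNum := by
    have hc : (G.induce T).IsClique ((Subtype.val ⁻¹' K : Set ↥T).toFinset : Set ↥T) := by
      rw [Set.coe_toFinset]
      intro x hx y hy hxy
      exact hK2 hx hy (fun h => hxy (Subtype.val_injective h))
    have h3 := hc.card_le_cliqueNum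
    rw [← Set.ncard_eq_toFinset_card'] at h3
    have h4 : (Subtype.val ⁻¹' K : Set ↥T).ncard = K.ncard := by
      rw [← Set.ncard_image_of_injective _ Subtype.val_injective, Subtype.image_preimage_coe,
        Set.inter_eq_right.2 hK1]
    rwa [h4] at h3
  refine le_antisymm (h1.trans (by exact_mod_cast h2)) ?_
  exact (G.induce T).cliqueNum_le_chromaticNumber

theorem wt_coe {V : Type} [Fintype V] (w : V → ℕ) (K : Finset V) :
    wt w (↑K : Set V) = ∑ v ∈ K, w v := by
  classical
  unfold wt
  rw [← Finset.sum_subset (Finset.subset_univ K)]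
  · exact Finset.sum_congr rfl (fun v hv => Set.indicator_of_mem (Finset.mem_coe.2 hv) w)
  · intro v _ hv
    exact Set.indicator_of_notMem (fun h => hv (Finset.mem_coe.1 h)) w

/-- Every finite fork-free graph is perfectly weight divisible; with all weights equal to one: it is
perfectly divisible. -/
theorem result : ∀ (V : Type) [Fintype V] (G : SimpleGraph V), IsForkFree G →
    PerfectlyWeightDivisible G := by
  classical
  intro V _ G hG w hw S hS
  have hff : ForkFree G := by
    intro a b c d e h1 h2 h3 h4 h5 h6 h7 h8 h9 h10 h11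
    refine hG ⟨a, b, c, d, e, ?_, ?_, ?_, ?_, ?_, h11, h1, h2, h3, h4, h5, h6, h7, h8, h9, h10⟩
    · rintro rfl; exact h6 h3
    · rintro rfl; exact h5 h3.symm
    · rintro rfl; exact h5 h4.symm
    · rintro rfl; exact h6 h1
    · rintro rfl; exact h7 h1
  obtain ⟨x, hx⟩ := hS
  obtain ⟨A, hAS, hA, hh⟩ := goodSet_of_induce (main_good _ ↥S rfl ⟨⟨x, hx⟩⟩ (G.induce S)
    (hff.induce S) (fun v => w v.1) (fun v => hw v.1)) (G := G) (w := w)
  obtain ⟨K, hK⟩ := exists_heavy G w S
  refine ⟨A, S \ A, Set.union_sdiff_cancel hAS, Set.disjoint_sdiff_right, perfectOn_of_perf hA,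
    K.toFinset, by simpa using hK.1, by simpa using hK.2.1, ?_⟩
  intro L hL hLc
  by_contra hcon
  rw [not_lt, ← wt_coe, ← wt_coe, Set.coe_toFinset] at hcon
  obtain ⟨y, hy1, hy2⟩ := hh (↑L) ⟨fun v hv => (hL hv).1, hLc, fun K' h2 h3 =>
    (hK.2.2 K' h2 h3).trans hcon⟩
  exact (hL hy1).2 hy2

end Pool.Agent.Results.MP_e9db21_co.ForkFreeWeightDivisible
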